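import Mathlib
import Pool.Agent.H11.Xray.Defs
import Pool.Agent.H11.Xray.Hexagon

open Pool.Agent.H11.Xray

theorem Pool.Agent.Results.MP_259ac5_co.ThreePoints.result :
    ∀ P : Finset (ℤ × ℤ), P.card = 3 → ¬ Collinear ℝ (toR '' (P : Set (ℤ × ℤ))) →
      ¬ Determines P :=
  main
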